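import Mathlib

open Finset Polynomial

namespace Pool.Agent.Results.MP_c1403d_pr.Sinh

/-- `c n j k` is the coefficient of `z^j b^k a^{-(k+2)}` in `a⁻¹ Dⁿ(a⁻¹)`; the recursion is the
product rule for `D (z^j b^k a^{-(k+1)})`. -/
def c : ℕ → ℕ → ℕ → ℚ
  | 0, j, k => if j = 0 ∧ k = 0 then 1 else 0
  | n + 1, j, k => (j + 1) * c n (j + 1) k + (if j = 0 then 0 else (k + 1) * c n (j - 1) (k + 1))
      - k * c n j (k - 1)

/-- `R j k l i l'` is the coefficient of the symbol `[i, 0, l']` in `R[j, k, l]`. -/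
def R : ℕ → ℕ → ℕ → ℕ → ℕ → ℚ
  | j, 0, l, i, l' => if j = i ∧ l = l' then 1 else 0
  | j, 1, l, i, l' => j / (l - 1) * R (j - 1) 0 (l - 1) i l'
  | j, k + 2, l, i, l' => j / (l - 1) * R (j - 1) (k + 1) (l - 1) i l'
      + (k + 1) / (l - 1) * R (j + 1) k (l - 2) i l'

/-- `b n i`: the coefficient of `[i, 0, 2]` in `∑ c n j k • R[j, k, k + 2]`. -/
def b (n i : ℕ) : ℚ := ∑ j ∈ range (n + 1), ∑ k ∈ range (n + 1), c n j k * R j k (k + 2) i 2

lemma c_zero : ∀ n j k, n < 2 * j + k → c n j k = 0
  | 0, j, k, h => by rw [c, if_neg (by omega)]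
  | n + 1, j, k, h => by
    rw [c, c_zero n (j + 1) k (by omega), c_zero n j (k - 1) (by omega)]
    split_ifs with hj
    · simp
    · rw [c_zero n (j - 1) (k + 1) (by omega)]; simp

lemma R_top (i : ℕ) : ∀ k j, 2 * j + k ≤ 2 * i →
    R j k (k + 2) i 2 = if 2 * j + k = 2 * i then 1 / ((k : ℚ) + 1) else 0
  | 0, j, h => by
    rw [R]; by_cases hj : j = i
    · simp [hj]
    · rw [if_neg (by omega), if_neg (by omega)]
  | 1, j, h => by
    rw [R, R, if_neg (by omega), if_neg (by omega)]; simp
  | k + 2, j, h => by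
    rw [R, show k + 2 + 2 - 1 = k + 1 + 2 by omega, show k + 2 + 2 - 2 = k + 2 by omega,
      R_top i (k + 1) (j - 1) (by omega), R_top i k (j + 1) (by omega), if_neg (by omega)]
    by_cases hj : 2 * j + (k + 2) = 2 * i
    · rw [if_pos (by omega), if_pos hj]; push_cast
      have h1 : (k : ℚ) + 2 + 2 - 1 = k + 2 + 1 := by ring
      rw [h1]; field_simp; ring
    · rw [if_neg (by omega), if_neg hj]; simp

noncomputable def A : Module.End ℚ ℚ[X] := LinearMap.mulLeft ℚ (1 - X ^ 2) ∘ₗ derivative
noncomputable def E : Module.End ℚ ℚ[X] := A - LinearMap.mulLeft ℚ X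

lemma A_apply (P : ℚ[X]) : A P = (1 - X ^ 2) * derivative P := rfl
lemma E_apply (P : ℚ[X]) : E P = (1 - X ^ 2) * derivative P - X * P := rfl

lemma E_coeff (P : ℚ[X]) (k : ℕ) :
    (E P).coeff k = (k + 1) * P.coeff (k + 1) - k * P.coeff (k - 1) := by
  rw [E_apply, sub_mul, one_mul, coeff_sub, coeff_sub, coeff_derivative, coeff_X_pow_mul']
  rcases k with _ | _ | k
  · simp
  · simp; ring
  · rw [if_pos (by omega), coeff_X_mul, show k + 1 + 1 - 2 = k by omega, coeff_derivative]
    simp; ring

lemma P_zero : ∀ n k, (∀ j, 2 * j + k ≠ n) → ((E ^ n) 1).coeff k = 0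
  | 0, k, h => by
    have : k ≠ 0 := by rintro rfl; exact h 0 rfl
    simp [coeff_one, this]
  | n + 1, k, h => by
    rw [pow_succ', Module.End.mul_apply, E_coeff,
      P_zero n (k + 1) (fun j hj => h (j + 1) (by omega))]
    rcases k with _ | k
    · simp
    · rw [Nat.add_sub_cancel, P_zero n k (fun j hj => h j (by omega))]; simp

lemma c_top : ∀ n j k, 2 * j + k = n → c n j k = ((E ^ n) 1).coeff k
  | 0, j, k, h => by
    obtain rfl : k = 0 := by omega
    obtain rfl : j = 0 := by omega
    simp [c]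
  | n + 1, j, k, h => by
    rw [c, c_zero n (j + 1) k (by omega), pow_succ', Module.End.mul_apply, E_coeff]
    have h2 : (k : ℚ) * c n j (k - 1) = k * ((E ^ n) 1).coeff (k - 1) := by
      rcases k with _ | k
      · simp
      · rw [c_top n j _ (by omega)]
    rw [h2]
    split_ifs with hj
    · rw [P_zero n (k + 1) (fun j hj => by omega)]; simp
    · rw [c_top n (j - 1) (k + 1) (by omega)]; simp

def w (k : ℕ) : ℚ := if Even k then 1 / ((k : ℚ) + 1) else 0

noncomputable def phi : ℚ[X] →ₗ[ℚ] ℚ := Polynomial.lsum fun k => LinearMap.mulRight ℚ (w k)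

lemma phi_mono (k : ℕ) (a : ℚ) : phi (monomial k a) = a * w k := by
  simp [phi, lsum_apply, sum_monomial_index]

lemma phi_deriv (Q : ℚ[X]) : 2 * phi (derivative Q) = Q.eval 1 - Q.eval (-1) := by
  induction Q using Polynomial.induction_on' with
  | add P Q hP hQ => simp only [map_add, eval_add]; linarith
  | monomial n a =>
    rw [derivative_monomial, phi_mono, eval_monomial, eval_monomial]
    rcases n with _ | n
    · simp
    · rcases Nat.even_or_odd n with h | h
      · rw [Nat.add_sub_cancel, w, if_pos h, h.add_one.neg_one_pow]; push_cast; field_simp; ring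
      · rw [Nat.add_sub_cancel, w, if_neg (Nat.not_even_iff_odd.2 h), h.add_one.neg_one_pow]; simp

lemma phi_eq (n : ℕ) : phi ((E ^ n) 1) = ∑ k ∈ range (n + 1), ((E ^ n) 1).coeff k * w k := by
  have hd : ((E ^ n) 1).natDegree < n + 1 := Nat.lt_succ_of_le
    (natDegree_le_iff_coeff_eq_zero.2 fun k hk => P_zero n k fun j hj => by omega)
  conv_lhs => rw [as_sum_range' _ _ hd, map_sum]
  simp only [phi_mono]

lemma b_eq (n : ℕ) : (if Even n then b n (n / 2) else 0) = phi ((E ^ n) 1) := by
  rw [phi_eq]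
  split_ifs with h
  · obtain ⟨m, rfl⟩ := h
    rw [b, sum_comm, show (m + m) / 2 = m by omega]
    refine sum_congr rfl fun k hk => ?_
    have hk' := mem_range.1 hk
    rcases Nat.even_or_odd k with he | ho
    · obtain ⟨t, ht⟩ := id he
      rw [sum_eq_single (m - t), R_top m k _ (by omega), if_pos (by omega), c_top _ _ _ (by omega),
        w, if_pos he]
      · intro j _ hj
        by_cases h1 : 2 * j + k ≤ 2 * m
        · rw [R_top m k j h1, if_neg (by omega), mul_zero]
        · rw [c_zero _ _ _ (by omega), zero_mul]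
      · intro h1; exact absurd (mem_range.2 (by omega)) h1
    · rw [w, if_neg (Nat.not_even_iff_odd.2 ho), mul_zero]
      obtain ⟨t, ht⟩ := ho
      refine sum_eq_zero fun j _ => ?_
      by_cases h1 : 2 * j + k ≤ 2 * m
      · rw [R_top m k j h1, if_neg (by omega), mul_zero]
      · rw [c_zero _ _ _ (by omega), zero_mul]
  · symm
    refine sum_eq_zero fun k _ => ?_
    by_cases he : Even k
    · rw [P_zero n k (fun j hj => h (by obtain ⟨t, ht⟩ := he; exact ⟨j + t, by omega⟩)), zero_mul]
    · rw [w, if_neg he, mul_zero]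

lemma shift (e : ℚ) (he : e ^ 2 = 1) (N : ℕ) :
    ((E + algebraMap ℚ _ e) ^ (N + 1)) 1 = (C e - X) * derivative ((A ^ N) X) := by
  have hC : (C e : ℚ[X]) ^ 2 = 1 := by rw [← C_pow, he, C_1]
  induction N with
  | zero => simp [E_apply, Module.algebraMap_end_apply, smul_eq_C_mul]; ring
  | succ N ih =>
    rw [pow_succ' _ (N + 1), Module.End.mul_apply, ih, pow_succ' A, Module.End.mul_apply,
      LinearMap.add_apply, E_apply, A_apply, Module.algebraMap_end_apply, smul_eq_C_mul]
    simp only [derivative_mul, derivative_sub, derivative_C, derivative_X, derivative_one,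
      derivative_X_pow, Nat.cast_ofNat, map_ofNat]
    linear_combination (derivative ((A ^ N) X)) * hC

lemma binom (e : ℚ) (N : ℕ) : phi (((E + algebraMap ℚ _ e) ^ N) 1)
    = ∑ n ∈ range (N + 1), e ^ (N - n) * N.choose n * phi ((E ^ n) 1) := by
  rw [Commute.add_pow (Algebra.commutes e E).symm, LinearMap.sum_apply, map_sum]
  refine sum_congr rfl fun n _ => ?_
  rw [← map_pow, ← map_natCast (algebraMap ℚ (Module.End ℚ ℚ[X])), mul_assoc, ← map_mul,
    Module.End.mul_apply, Module.algebraMap_end_apply, map_smul, map_smul, smul_eq_mul]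

lemma key (N : ℕ) : ∑ n ∈ range (N + 1), (1 - (-1) ^ (N - n)) * N.choose n * phi ((E ^ n) 1)
    = if N = 1 then 2 else 0 := by
  rcases N with _ | N
  · simp
  have h1 := binom 1 (N + 1)
  have h2 := binom (-1) (N + 1)
  rw [shift _ (by norm_num)] at h1 h2
  have h3 : phi ((C 1 - X) * derivative ((A ^ N) X)) - phi ((C (-1) - X) * derivative ((A ^ N) X))
      = 2 * phi (derivative ((A ^ N) X)) := by
    rw [← map_sub, ← smul_eq_mul (2 : ℚ), ← map_smul phi, smul_eq_C_mul]
    congr 1
    simp only [map_neg, map_one, map_ofNat]; ring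
  rw [phi_deriv, h1, h2, ← sum_sub_distrib] at h3
  have h4 : eval 1 ((A ^ N) X) - eval (-1) ((A ^ N) X) = if N + 1 = 1 then 2 else 0 := by
    rcases N with _ | N
    · simp; norm_num
    · rw [pow_succ', Module.End.mul_apply, A_apply]; simp
  rw [← h4, ← h3]
  exact sum_congr rfl fun n _ => by ring

lemma main :
    PowerSeries.mk (fun n => if Even n then b n (n / 2) / n.factorial else (0 : ℚ)) *
      PowerSeries.mk (fun n => if Odd n then 1 / (n.factorial : ℚ) else 0) = PowerSeries.X := by
  ext N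
  rw [PowerSeries.coeff_mul, Nat.sum_antidiagonal_eq_sum_range_succ
    (fun i j => PowerSeries.coeff i _ * PowerSeries.coeff j _), PowerSeries.coeff_X]
  simp only [PowerSeries.coeff_mk]
  have hN : (N.factorial : ℚ) ≠ 0 := by positivity
  have h := key N
  have e : ∑ n ∈ range (N + 1), (1 - (-1) ^ (N - n)) * N.choose n * phi ((E ^ n) 1)
      = 2 * N.factorial * ∑ n ∈ range (N + 1), (if Even n then b n (n / 2) / n.factorial else 0) *
        (if Odd (N - n) then 1 / ((N - n).factorial : ℚ) else 0) := by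
    rw [mul_sum]
    refine sum_congr rfl fun n hn => ?_
    rw [← b_eq, Nat.cast_choose ℚ (Nat.lt_succ_iff.1 (mem_range.1 hn))]
    rcases Nat.even_or_odd (N - n) with h1 | h1
    · rw [h1.neg_one_pow, if_neg (Nat.not_odd_iff_even.2 h1)]; simp
    · rw [h1.neg_one_pow, if_pos h1]
      split_ifs
      · field_simp; ring
      · simp
  rw [e] at h
  split_ifs at h ⊢ with h1
  · subst h1; simp only [Nat.factorial_one, Nat.cast_one, mul_one] at h; linarith
  · simpa [hN] using h

lemma expand {S : Type} [CommRing S] [Algebra ℚ S] (D : Derivation ℚ S S) (z a a' y : S)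
    (ha : a * a' = 1) (hz : D z = 1) (hDa : D a = y) (hy : D y = z * a) (n M : ℕ) (hM : n < M) :
    D^[n] a' = ∑ j ∈ range M, ∑ k ∈ range M, c n j k • (z ^ j * y ^ k * a' ^ (k + 1)) := by
  have hD' : D a' = -(y * a' ^ 2) := by
    have h := congrArg D ha
    rw [Derivation.leibniz, Derivation.map_one_eq_zero, hDa, smul_eq_mul, smul_eq_mul] at h
    linear_combination a' * h - D a' * ha
  have hT : ∀ j k : ℕ, D (z ^ j * y ^ k * a' ^ (k + 1)) =
      (j : ℚ) • (z ^ (j - 1) * y ^ k * a' ^ (k + 1))
      + (k : ℚ) • (z ^ (j + 1) * y ^ (k - 1) * a' ^ (k - 1 + 1))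
      - ((k + 1 : ℕ) : ℚ) • (z ^ j * y ^ (k + 1) * a' ^ (k + 1 + 1)) := by
    intro j k
    simp only [Derivation.leibniz, Derivation.leibniz_pow, hz, hy, hD', smul_eq_mul, nsmul_eq_mul,
      Algebra.smul_def, map_natCast, map_add, map_one, Nat.add_sub_cancel, Algebra.algebraMap_self,
      RingHom.id_apply]
    rcases k with _ | k
    · simp; ring
    · simp only [Nat.add_sub_cancel]; push_cast
      linear_combination ((k : S) + 1) * z ^ (j + 1) * y ^ k * a' ^ (k + 1) * ha
  have sh : ∀ f : ℕ → S, f 0 = 0 → f M = 0 → ∑ j ∈ range M, f j = ∑ j ∈ range M, f (j + 1) := by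
    intro f h0 h1
    have h2 := sum_range_succ' f M
    rw [sum_range_succ, h0, h1, add_zero, add_zero] at h2
    exact h2
  induction n with
  | zero =>
    rw [sum_eq_single 0, sum_eq_single 0]
    · simp [c]
    · intro k _ hk; simp [c, hk]
    · intro h; exact absurd (mem_range.2 hM) h
    · intro j _ hj; simp [c, hj]
    · intro h; exact absurd (mem_range.2 hM) h
  | succ n ih =>
    rw [Function.iterate_succ_apply', ih (by omega)]
    simp only [map_sum, Derivation.map_smul, hT, c, smul_sub, smul_add, smul_smul, sub_smul,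
      add_smul, sum_add_distrib, sum_sub_distrib]
    congr 1
    · congr 1
      · rw [sum_comm, sum_comm (s := range M) (t := range M)
          (f := fun j k => (((j : ℚ) + 1) * c n (j + 1) k) • (z ^ j * y ^ k * a' ^ (k + 1)))]
        refine sum_congr rfl fun k _ => ?_
        rw [sh _ (by simp) (by simp [c_zero n M k (by omega)])]
        refine sum_congr rfl fun j _ => ?_
        simp [mul_comm]
      · rw [sh (fun j => ∑ k ∈ range M, (if j = 0 then 0 else ((k : ℚ) + 1) * c n (j - 1) (k + 1)) •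
          (z ^ j * y ^ k * a' ^ (k + 1))) (by simp) (sum_eq_zero fun k _ => by
            simp [c_zero n (M - 1) (k + 1) (by omega)])]
        refine sum_congr rfl fun j _ => ?_
        rw [sh _ (by simp) (by simp [c_zero n j M (by omega)])]
        refine sum_congr rfl fun k _ => ?_
        simp [mul_comm]
    · refine sum_congr rfl fun j _ => ?_
      rw [sh (fun k => ((k : ℚ) * c n j (k - 1)) • (z ^ j * y ^ k * a' ^ (k + 1))) (by simp)
        (by simp [c_zero n j (M - 1) (by omega)])]
      refine sum_congr rfl fun k _ => ?_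
      simp [mul_comm]

/-- The numbers `c n j k` expand `a⁻¹ Dⁿ(a⁻¹)`, and `(∑ b_{2m,m} x^{2m}/(2m)!) · sinh x = x`. -/
theorem result :
    (∀ (S : Type) [CommRing S] [Algebra ℚ S] (D : Derivation ℚ S S) (z a a' y : S),
      a * a' = 1 → D z = 1 → D a = y → D y = z * a → ∀ n : ℕ,
      a' * D^[n] a' = ∑ j ∈ range (n + 1), ∑ k ∈ range (n + 1),
        c n j k • (z ^ j * y ^ k * a' ^ (k + 2))) ∧
    PowerSeries.mk (fun n => if Even n then b n (n / 2) / n.factorial else (0 : ℚ)) *
      PowerSeries.mk (fun n => if Odd n then 1 / (n.factorial : ℚ) else 0) = PowerSeries.X := by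
  refine ⟨fun S _ _ D z a a' y ha hz hDa hy n => ?_, main⟩
  rw [expand D z a a' y ha hz hDa hy n (n + 1) (by omega), mul_sum]
  refine sum_congr rfl fun j _ => ?_
  rw [mul_sum]
  refine sum_congr rfl fun k _ => ?_
  rw [mul_smul_comm]; congr 1; ring

end Pool.Agent.Results.MP_c1403d_pr.Sinh
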